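import Mathlib
import Pool.Agent.H.MP_d9d12d_lc.D

set_option autoImplicit false

namespace Pool.Agent.Results.MP_d9d12d_lc.Borel

open Set Cardinal
open scoped ENNReal NNReal

/-- Hausdorff dimension in Cantor space for the metric `2 ^ (-n)`, `n` the first difference. -/
noncomputable def dim (E : Set (ℕ → Bool)) : ℝ≥0∞ :=
  @dimH (ℕ → Bool) (PiNat.metricSpace (E := fun _ => Bool)).toEMetricSpace E

theorem result (hCH : continuum.{0} = aleph 1) (s : ℝ≥0) (hs : s ≤ 1) :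
    ∃ E : Set (ℕ → Bool), dim E = s ∧ ∀ f : (ℕ → Bool) → (ℕ → Bool),
      (∀ U, IsOpen U → @MeasurableSet _ (borel (ℕ → Bool)) (f ⁻¹' U)) → dim (f '' E) ≤ s := by
  obtain ⟨E, h1, h2⟩ := Pool.Agent.H.MP_d9d12d_lc.main hCH s hs
  refine ⟨E, h1, fun f hf => h2 f (measurable_of_isOpen fun U hU => ?_)⟩
  have := hf U hU
  rwa [← BorelSpace.measurable_eq (α := ℕ → Bool)] at this

end Pool.Agent.Results.MP_d9d12d_lc.Borel
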